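import Pool.Agent.H366Z.BO.Ord
import Pool.Agent.Helper281.Sc.LN

/-! Every countable Borel equivalence relation reduces to the shift of the free group. -/

set_option autoImplicit false

namespace Pool.Agent.H366Z.BO

open scoped Classical

lemma involutions {X : Type} [MeasurableSpace X] [StandardBorelSpace X] (E : X → X → Prop)
    (hE : Equivalence E) (hm : MeasurableSet {p : X × X | E p.1 p.2})
    (hc : ∀ x, {y | E x y}.Countable) :
    ∃ f : ℤ → X → X, (∀ n, Measurable (f n)) ∧ (∀ n, Function.Involutive (f n)) ∧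
      (∀ n x, E x (f n x)) ∧ ∀ x y, E x y → x ≠ y → ∃ n, f n x = y := by
  obtain ⟨δ, hδ, hδE⟩ := Pool.Agent.Helper281.LN.cber_enum E hE hm hc
  obtain ⟨u, hu, hui⟩ := MeasurableSpace.measurable_injection_nat_bool_of_countablySeparated X
  let D : ℕ → ℕ → ℕ → Bool → Set X := fun n m k b =>
    {x | u x k = b ∧ u (δ n x) k = !b ∧ δ m (δ n x) = x}
  have hD : ∀ n m k b, MeasurableSet (D n m k b) := by
    intro n m k b
    have h1 : Measurable fun x => u x k := (measurable_pi_apply k).comp hu
    exact (h1 (MeasurableSet.singleton b)).inter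
      (((h1.comp (hδ n)) (MeasurableSet.singleton (!b))).inter
        (measurableSet_eq_fun ((hδ m).comp (hδ n)) measurable_id))
  let g : ℕ × ℕ × ℕ × Bool → X → X := fun p x =>
    if x ∈ D p.1 p.2.1 p.2.2.1 p.2.2.2 then δ p.1 x
    else if x ∈ D p.2.1 p.1 p.2.2.1 (!p.2.2.2) then δ p.2.1 x else x
  obtain ⟨q, hq⟩ := exists_surjective_nat (ℕ × ℕ × ℕ × Bool)
  refine ⟨fun n => g (q n.toNat), fun n => ?_, fun n => ?_, fun n x => ?_, fun x y hxy hne => ?_⟩
  · exact Measurable.ite (hD _ _ _ _) (hδ _) (Measurable.ite (hD _ _ _ _) (hδ _) measurable_id)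
  · show Function.Involutive (g (q n.toNat))
    generalize q n.toNat = p
    obtain ⟨n, m, k, b⟩ := p
    intro x
    by_cases h1 : x ∈ D n m k b
    · have e1 : g (n, m, k, b) x = δ n x := if_pos h1
      have h2 : δ n x ∉ D n m k b := fun h => by
        have := h.1.symm.trans h1.2.1
        cases b <;> simp at this
      have h3 : δ n x ∈ D m n k (!b) :=
        ⟨h1.2.1, by rw [h1.2.2, Bool.not_not]; exact h1.1, by rw [h1.2.2]⟩
      rw [e1]
      exact (if_neg h2).trans ((if_pos h3).trans h1.2.2)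
    · by_cases h2 : x ∈ D m n k (!b)
      · have e1 : g (n, m, k, b) x = δ m x := (if_neg h1).trans (if_pos h2)
        have h3 : δ m x ∈ D n m k b :=
          ⟨by rw [h2.2.1, Bool.not_not], by rw [h2.2.2]; exact h2.1, by rw [h2.2.2]⟩
        rw [e1]
        exact (if_pos h3).trans h2.2.2
      · have e1 : g (n, m, k, b) x = x := (if_neg h1).trans (if_neg h2)
        rw [e1, e1]
  · simp only [g]
    split_ifs
    · exact (hδE _ _).2 ⟨_, rfl⟩
    · exact (hδE _ _).2 ⟨_, rfl⟩
    · exact hE.refl x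
  · obtain ⟨n, hn⟩ := (hδE x y).1 hxy
    obtain ⟨m, hm⟩ := (hδE y x).1 (hE.symm hxy)
    obtain ⟨k, hk⟩ := Function.ne_iff.1 (hui.ne hne)
    obtain ⟨j, hj⟩ := hq (n, m, k, u x k)
    refine ⟨j, ?_⟩
    simp only [Int.toNat_natCast, hj]
    have h1 : x ∈ D n m k (u x k) := ⟨rfl, by
      rw [hn]; cases h : u x k <;> simp_all, by rw [hn, hm]⟩
    exact (if_pos h1).trans hn

theorem shift_univ {X : Type} [MeasurableSpace X] [StandardBorelSpace X] (E : X → X → Prop)
    (hE : Equivalence E) (hm : MeasurableSet {p : X × X | E p.1 p.2})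
    (hc : ∀ x, {y | E x y}.Countable) :
    ∃ S : X → Set F2, (∀ g, MeasurableSet {x | g ∈ S x}) ∧ (∀ x, ∃ z, z ∉ S x) ∧
      ∀ x y, E x y ↔ ∃ h, ∀ g, g ∈ S x ↔ g * h ∈ S y := by
  obtain ⟨f, fm, fi, fE, fs⟩ := involutions E hE hm hc
  obtain ⟨u, hu, hui⟩ := MeasurableSpace.measurable_injection_nat_bool_of_countablySeparated X
  let σ : Equiv.Perm (X × ℤ) := Function.Involutive.toPerm (fun p => (f p.2 p.1, p.2))
    fun p => by simp [fi p.2 p.1]
  let τ : Equiv.Perm (X × ℤ) :=
    ⟨fun p => (p.1, p.2 + 1), fun p => (p.1, p.2 - 1), fun p => by simp, fun p => by simp⟩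
  let A : F2 →* Equiv.Perm (X × ℤ) := FreeGroup.lift ![σ, τ]
  have As : A s = σ := by simp [A, s]
  have At : A t = τ := by simp [A, t]
  have σm : Measurable σ :=
    (measurable_from_prod_countable_left (f := fun p : X × ℤ => f p.2 p.1) fun n => fm n).prodMk
      measurable_snd
  have good : ∀ w, Measurable (A w) ∧ ∀ p, E p.1 (A w p).1 := by
    intro w
    induction w using FreeGroup.induction_on with
    | C1 => rw [map_one]; exact ⟨measurable_id, fun p => hE.refl _⟩
    | of i =>
      fin_cases i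
      · exact (show A s = σ from As) ▸ ⟨σm, fun p => fE _ _⟩
      · exact (show A t = τ from At) ▸
          ⟨measurable_fst.prodMk (measurable_snd.add_const 1), fun p => hE.refl _⟩
    | inv_of i _ =>
      rw [map_inv]
      fin_cases i
      · exact (show A s = σ from As) ▸ ⟨σm, fun p => fE _ _⟩
      · exact (show A t = τ from At) ▸
          ⟨measurable_fst.prodMk (measurable_snd.sub_const 1), fun p => hE.refl _⟩
    | mul a b ha hb =>
      rw [map_mul]
      exact ⟨ha.1.comp hb.1, fun p => hE.trans (hb.2 p) (ha.2 _)⟩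
  have tz : ∀ (n : ℤ) p, A (t ^ n) p = (p.1, p.2 + n) := by
    intro n
    rw [map_zpow, At]
    induction n using Int.induction_on with
    | zero => simp
    | succ n ih =>
      intro p
      rw [zpow_add_one, Equiv.Perm.mul_apply, ih]
      show (p.1, p.2 + 1 + n) = _
      congr 1; ring
    | pred n ih =>
      intro p
      rw [zpow_sub_one, Equiv.Perm.mul_apply, ih]
      show (p.1, p.2 - 1 + -n) = _
      congr 1; ring
  let U : Set (X × ℤ) := {p | p.2 = 0 ∨ (0 < p.2 ∧ u p.1 (p.2 - 1).toNat = true)}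
  have Um : MeasurableSet U := by
    have h1 : Measurable fun p : X × ℤ => u p.1 (p.2 - 1).toNat :=
      measurable_from_prod_countable_left fun n => (measurable_pi_apply (n - 1).toNat).comp hu
    exact (measurable_snd (MeasurableSet.singleton 0)).union
      ((measurable_snd (t := {n : ℤ | 0 < n}) trivial).inter (h1 (MeasurableSet.singleton true)))
  have inj : ∀ p q, (∀ g, A g p ∈ U ↔ A g q ∈ U) → p.1 = q.1 := by
    rintro ⟨x, a⟩ ⟨y, b⟩ h
    have h1 := (h (t ^ (-a))).1 (by rw [tz]; left; simp)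
    have h2 := (h (t ^ (-b))).2 (by rw [tz]; left; simp)
    rw [tz] at h1 h2
    have e : a = b := by
      have h3 : 0 ≤ b + -a := h1.elim (fun h => h.ge) fun h => h.1.le
      have h4 : 0 ≤ a + -b := h2.elim (fun h => h.ge) fun h => h.1.le
      omega
    subst e
    apply hui
    funext k
    have h3 := h (t ^ (-a + k + 1))
    rw [tz, tz] at h3
    have e1 : a + (-a + k + 1) = k + 1 := by ring
    have e2 : ((k : ℤ) + 1 - 1).toNat = k := by simp
    have e3 : ¬ ((k : ℤ) + 1 = 0) := by omega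
    have e4 : 0 < (k : ℤ) + 1 := by omega
    simp only [U, Set.mem_ofPred_eq, e1, e2, e3, e4, false_or, true_and] at h3
    exact Bool.eq_iff_iff.2 h3
  refine ⟨fun x => {g | A g (x, 0) ∈ U}, fun g => ?_, fun x => ⟨t ^ (-1 : ℤ), ?_⟩, fun x y => ?_⟩
  · exact ((good g).1.comp measurable_prodMk_right) Um
  · show A _ _ ∉ U
    rw [tz]; simp [U]
  · constructor
    · intro h
      by_cases hxy : y = x
      · exact ⟨1, fun g => by rw [mul_one, hxy]⟩
      · obtain ⟨n, hn⟩ := fs y x (hE.symm h) hxy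
        refine ⟨t ^ (-n) * s * t ^ n, fun g => ?_⟩
        have : A (t ^ (-n) * s * t ^ n) (y, 0) = (x, 0) := by
          rw [map_mul, map_mul, Equiv.Perm.mul_apply, Equiv.Perm.mul_apply, tz, tz, As]
          show (f (0 + n) y, 0 + n + -n) = _
          simp [hn]
        show A g (x, 0) ∈ U ↔ A (g * _) (y, 0) ∈ U
        rw [map_mul, Equiv.Perm.mul_apply, this]
    · rintro ⟨h, hh⟩
      have h1 := inj (x, 0) (A h (y, 0)) fun g => by
        rw [← Equiv.Perm.mul_apply, ← map_mul]; exact hh g
      have h2 := (good h).2 (y, 0)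
      rw [← h1] at h2
      exact hE.symm h2

end Pool.Agent.H366Z.BO
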