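import Pool.Agent.H366Z.BO.Ord

/-! The groups `N ⋊ Γ` with `N` nilpotent of class two. -/

set_option autoImplicit false
set_option linter.unusedSectionVars false

namespace Pool.Agent.H366Z.BO

variable {Γ : Type} [Group Γ]

@[ext] structure H (κ : Γ → Bool → Bool → ℤ) where
  γ : Γ
  v : Γ → Bool → ℤ
  c : Γ → Bool → Γ → Bool → ℤ

variable {κ : Γ → Bool → Bool → ℤ}

instance : Mul (H κ) := ⟨fun g h => ⟨g.γ * h.γ, fun x k => g.v x k + h.v (g.γ⁻¹ * x) k,
  fun x k y l => g.c x k y l + h.c (g.γ⁻¹ * x) k (g.γ⁻¹ * y) l +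
    κ (x⁻¹ * y) k l * g.v x k * h.v (g.γ⁻¹ * y) l⟩⟩
instance : One (H κ) := ⟨⟨1, fun _ _ => 0, fun _ _ _ _ => 0⟩⟩
instance : Inv (H κ) := ⟨fun g => ⟨g.γ⁻¹, fun x k => -g.v (g.γ * x) k,
  fun x k y l => -g.c (g.γ * x) k (g.γ * y) l + κ (x⁻¹ * y) k l * g.v (g.γ * x) k * g.v (g.γ * y) l⟩⟩

@[simp] lemma mul_γ (g h : H κ) : (g * h).γ = g.γ * h.γ := rfl
@[simp] lemma mul_v (g h : H κ) (x k) : (g * h).v x k = g.v x k + h.v (g.γ⁻¹ * x) k := rfl
@[simp] lemma mul_c (g h : H κ) (x k y l) : (g * h).c x k y l =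
    g.c x k y l + h.c (g.γ⁻¹ * x) k (g.γ⁻¹ * y) l +
      κ (x⁻¹ * y) k l * g.v x k * h.v (g.γ⁻¹ * y) l := rfl
@[simp] lemma one_γ : (1 : H κ).γ = 1 := rfl
@[simp] lemma one_v (x k) : (1 : H κ).v x k = 0 := rfl
@[simp] lemma one_c (x k y l) : (1 : H κ).c x k y l = 0 := rfl
@[simp] lemma inv_γ (g : H κ) : (g⁻¹).γ = g.γ⁻¹ := rfl
@[simp] lemma inv_v (g : H κ) (x k) : (g⁻¹).v x k = -g.v (g.γ * x) k := rfl
@[simp] lemma inv_c (g : H κ) (x k y l) : (g⁻¹).c x k y l =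
    -g.c (g.γ * x) k (g.γ * y) l + κ (x⁻¹ * y) k l * g.v (g.γ * x) k * g.v (g.γ * y) l := rfl

lemma shift (a x y : Γ) : (a * x)⁻¹ * (a * y) = x⁻¹ * y := by group

instance : Group (H κ) := Group.ofLeftAxioms
  (fun a b c => by
    ext
    · simp [mul_assoc]
    · simp [mul_assoc, add_assoc]
    · simp only [mul_c, mul_v, mul_γ, shift]
      simp only [mul_inv_rev, mul_assoc]; ring)
  (fun a => by ext <;> simp)
  (fun a => by ext <;> simp)

def hγ : H κ →* Γ := ⟨⟨H.γ, rfl⟩, fun _ _ => rfl⟩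

def inl : Γ →* H κ where
  toFun g := ⟨g, fun _ _ => 0, fun _ _ _ _ => 0⟩
  map_one' := rfl
  map_mul' a b := by ext <;> simp

@[simp] lemma inl_γ (g : Γ) : (inl g : H κ).γ = g := rfl
@[simp] lemma inl_v (g : Γ) (x k) : (inl g : H κ).v x k = 0 := rfl
@[simp] lemma inl_c (g : Γ) (x k y l) : (inl g : H κ).c x k y l = 0 := rfl

open Classical in
/-- basis elements -/
noncomputable def e (x : Γ) (k : Bool) : H κ :=
  ⟨1, fun y l => if y = x ∧ l = k then 1 else 0, fun _ _ _ _ => 0⟩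

@[simp] lemma e_γ (x : Γ) (k : Bool) : (e x k : H κ).γ = 1 := rfl
open Classical in
lemma e_v (x : Γ) (k : Bool) (y l) : (e x k : H κ).v y l = if y = x ∧ l = k then 1 else 0 := rfl
@[simp] lemma e_c (x : Γ) (k : Bool) (a b c d) : (e x k : H κ).c a b c d = 0 := rfl

open Classical in
lemma conj_e (g x : Γ) (k : Bool) : (inl g * e x k * (inl g)⁻¹ : H κ) = e (g * x) k := by
  ext
  · simp
  · simp only [mul_v, inl_v, inv_v, e_v, inl_γ, zero_add, neg_zero, add_zero]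
    exact if_congr (by rw [inv_mul_eq_iff_eq_mul]) rfl rfl
  · simp

lemma conj_v (g h : H κ) (hh : h.γ = 1) (x k) : (g * h * g⁻¹).v x k = h.v (g.γ⁻¹ * x) k := by
  simp [hh]

lemma conj_c (g h : H κ) (hh : h.γ = 1) (hv : h.v = 0) (x k y l) :
    (g * h * g⁻¹).c x k y l = h.c (g.γ⁻¹ * x) k (g.γ⁻¹ * y) l := by
  simp [hh, hv]; ring

lemma comm_iff (g h : H κ) (hg : g.γ = 1) (hh : h.γ = 1) : g * h = h * g ↔
    ∀ x k y l, κ (x⁻¹ * y) k l * g.v x k * h.v y l = κ (x⁻¹ * y) k l * h.v x k * g.v y l := by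
  constructor
  · intro e x k y l
    have := congrArg (fun z => H.c z x k y l) e
    simp only [mul_c, hg, hh, inv_one, one_mul] at this
    linarith
  · intro e
    ext x k y l
    · simp [hg, hh]
    · simp [hg, hh, add_comm]
    · simp only [mul_c, hg, hh, inv_one, one_mul, e x k y l]; ring

lemma zpow_γ (g : H κ) (hg : g.γ = 1) (z : ℤ) : (g ^ z).γ = 1 := by
  show hγ (g ^ z) = 1
  rw [map_zpow, show hγ g = 1 from hg, one_zpow]

lemma zpow_v (g : H κ) (hg : g.γ = 1) (z : ℤ) (x k) : (g ^ z).v x k = z * g.v x k := by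
  induction z using Int.induction_on with
  | zero => simp
  | succ n ih => rw [zpow_add_one, mul_v, ih, zpow_γ g hg]; simp; ring
  | pred n ih => rw [zpow_sub_one, mul_v, ih, zpow_γ g hg]; simp [hg]; ring

/-- finitely supported elements -/
def Fs (κ : Γ → Bool → Bool → ℤ) : Subgroup (H κ) where
  carrier := {g | {p : Γ × Bool | g.v p.1 p.2 ≠ 0}.Finite ∧
    {p : (Γ × Bool) × (Γ × Bool) | g.c p.1.1 p.1.2 p.2.1 p.2.2 ≠ 0}.Finite}
  one_mem' := by simp
  mul_mem' := by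
    rintro g h ⟨g1, g2⟩ ⟨h1, h2⟩
    let σ : Γ × Bool → Γ × Bool := fun p => (g.γ * p.1, p.2)
    constructor
    · refine (g1.union (h1.image σ)).subset fun p hp => ?_
      by_contra hn
      simp only [Set.mem_union, not_or, Set.mem_ofPred_eq, not_not] at hn
      apply hp
      rw [mul_v, hn.1, zero_add]
      by_contra h3
      exact hn.2 ⟨(g.γ⁻¹ * p.1, p.2), h3, by simp [σ]⟩
    · refine ((g2.union (h2.image (Prod.map σ σ))).union (g1.prod (h1.image σ))).subset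
        fun p hp => ?_
      by_contra hn
      simp only [Set.mem_union, not_or, Set.mem_ofPred_eq, not_not, Set.mem_prod, not_and_or] at hn
      apply hp
      have a1 : h.c (g.γ⁻¹ * p.1.1) p.1.2 (g.γ⁻¹ * p.2.1) p.2.2 = 0 := by
        by_contra h3
        exact hn.1.2 ⟨((g.γ⁻¹ * p.1.1, p.1.2), (g.γ⁻¹ * p.2.1, p.2.2)), h3, by simp [σ]⟩
      rw [mul_c, hn.1.1, a1]
      rcases hn.2 with h4 | h4
      · simp [h4]
      · have a2 : h.v (g.γ⁻¹ * p.2.1) p.2.2 = 0 := by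
          by_contra h3
          exact h4 ⟨(g.γ⁻¹ * p.2.1, p.2.2), h3, by simp [σ]⟩
        simp [a2]
  inv_mem' := by
    rintro g ⟨g1, g2⟩
    let σ : Γ × Bool → Γ × Bool := fun p => (g.γ⁻¹ * p.1, p.2)
    have a0 : ∀ p : Γ × Bool, p ∉ σ '' {p : Γ × Bool | g.v p.1 p.2 ≠ 0} →
        g.v (g.γ * p.1) p.2 = 0 := by
      intro p hp
      by_contra h3
      exact hp ⟨(g.γ * p.1, p.2), h3, by simp [σ]⟩
    constructor
    · refine (g1.image σ).subset fun p hp => ?_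
      by_contra hn
      apply hp
      rw [inv_v, a0 p hn, neg_zero]
    · refine ((g2.image (Prod.map σ σ)).union ((g1.image σ).prod (g1.image σ))).subset
        fun p hp => ?_
      by_contra hn
      simp only [Set.mem_union, not_or, Set.mem_prod, not_and_or] at hn
      apply hp
      have a1 : g.c (g.γ * p.1.1) p.1.2 (g.γ * p.2.1) p.2.2 = 0 := by
        by_contra h3
        exact hn.1 ⟨((g.γ * p.1.1, p.1.2), (g.γ * p.2.1, p.2.2)), h3, by simp [σ]⟩
      rw [inv_c, a1]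
      rcases hn.2 with h4 | h4 <;> simp [a0 _ h4]

lemma inl_fs (g : Γ) : inl g ∈ Fs κ := by
  constructor <;> simp

lemma e_fs (x : Γ) (k : Bool) : e x k ∈ Fs κ := by
  constructor
  · refine (Set.finite_singleton (x, k)).subset fun p hp => ?_
    simp only [Set.mem_ofPred_eq, e_v, ne_eq, ite_eq_right_iff, one_ne_zero, imp_false,
      not_not] at hp
    exact Prod.ext hp.1 hp.2
  · simp

def Pos {J : Type} [LinearOrder J] (w : J → ℤ) : Prop := ∃ i, 0 < w i ∧ ∀ j, i < j → w j = 0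

lemma cone_val {G J : Type} [Group G] [LinearOrder J] (N M : G → Prop) (val : G → J → ℤ)
    (h1 : N 1) (hmul : ∀ g h, N g → N h → N (g * h)) (hinv : ∀ g, N g → N g⁻¹)
    (hconj : ∀ g h, N g → N (h * g * h⁻¹))
    (hadd : ∀ g h, N g → N h → ∀ j, val (g * h) j = val g j + val h j)
    (hM : ∀ g, M g ↔ N g ∧ ∀ j, val g j = 0) (hfin : ∀ g, {j | val g j ≠ 0}.Finite)
    (hc : ∀ h, ∃ σ : J → J, StrictMono σ ∧ Function.Surjective σ ∧
      ∀ g, N g → ∀ j, val (h * g * h⁻¹) j = val g (σ j)) :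
    Cone N M (fun g => N g ∧ Pos (val g)) where
  sub _ h := h.1
  nM g h hm := by
    obtain ⟨-, i, hi, -⟩ := h
    rw [((hM g).1 hm).2 i] at hi
    exact lt_irrefl _ hi
  mul g h hg hh := by
    obtain ⟨hg, i, hi, hi'⟩ := hg
    obtain ⟨hh, j, hj, hj'⟩ := hh
    refine ⟨hmul g h hg hh, max i j, ?_, fun k hk => ?_⟩
    · rw [hadd g h hg hh]
      rcases lt_trichotomy i j with l | rfl | l
      · rw [max_eq_right l.le, hi' j l]; linarith
      · rw [max_self]; linarith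
      · rw [max_eq_left l.le, hj' i l]; linarith
    · rw [hadd g h hg hh, hi' k ((le_max_left _ _).trans_lt hk),
        hj' k ((le_max_right _ _).trans_lt hk), add_zero]
  mulM g h hg hh := by
    obtain ⟨hh, h0⟩ := (hM h).1 hh
    refine ⟨hmul g h hg.1 hh, ?_⟩
    have : val (g * h) = val g := funext fun j => by rw [hadd g h hg.1 hh, h0, add_zero]
    rw [this]; exact hg.2
  Mmul g h hg hh := by
    obtain ⟨hg, h0⟩ := (hM g).1 hg
    refine ⟨hmul g h hg hh.1, ?_⟩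
    have : val (g * h) = val h := funext fun j => by rw [hadd g h hg hh.1, h0, zero_add]
    rw [this]; exact hh.2
  tri g hg hm := by
    have hne : {j | val g j ≠ 0}.Nonempty := by
      by_contra hn
      exact hm ((hM g).2 ⟨hg, fun j => by_contra fun h => hn ⟨j, h⟩⟩)
    obtain ⟨i, hi, hmax⟩ := Set.exists_max_image _ id (hfin g) hne
    have h0 : ∀ j, i < j → val g j = 0 := fun j hj => by_contra fun h => (hmax j h).not_gt hj
    have hneg : ∀ j, val g⁻¹ j = -val g j := by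
      intro j
      have a1 := hadd 1 1 h1 h1 j
      have a2 := hadd g g⁻¹ hg (hinv g hg) j
      rw [mul_inv_cancel] at a2
      rw [mul_one] at a1
      linarith
    rcases lt_or_gt_of_ne (show val g i ≠ 0 from hi) with l | l
    · exact Or.inr ⟨hinv g hg, i, by rw [hneg]; linarith, fun j hj => by rw [hneg, h0 j hj, neg_zero]⟩
    · exact Or.inl ⟨hg, i, l, h0⟩
  conj g h hg := by
    obtain ⟨hg, i, hi, hi'⟩ := hg
    obtain ⟨σ, s1, s2, s3⟩ := hc h
    obtain ⟨i', rfl⟩ := s2 i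
    exact ⟨hconj g h hg, i', by rwa [s3 g hg], fun j hj => by rw [s3 g hg, hi' _ (s1 hj)]⟩

section order
variable [LinearOrder Γ] [MulLeftMono Γ] [MulRightMono Γ]

def sh (a : Γ) (p : Γ ×ₗ Bool) : Γ ×ₗ Bool := toLex (a * (ofLex p).1, (ofLex p).2)

lemma sh_mono (a : Γ) : StrictMono (sh a) := by
  intro p q h
  rcases Prod.Lex.lt_iff.1 h with h | ⟨h1, h2⟩
  · exact Prod.Lex.lt_iff.2 (Or.inl (mul_lt_mul_right h a))
  · exact Prod.Lex.lt_iff.2 (Or.inr ⟨congrArg (a * ·) h1, h2⟩)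

lemma sh_surj (a : Γ) : Function.Surjective (sh a) := fun p =>
  ⟨sh a⁻¹ p, by simp [sh]⟩

theorem fs_order (K : Subgroup (H κ)) (hK : K ≤ Fs κ) : ∃ o : LinearOrder K,
    ∀ a b c : K, o.le a b → o.le (c * a) (c * b) ∧ o.le (a * c) (b * c) := by
  have c1 : Cone (fun _ : K => True) (fun g => g.1.γ = 1) (fun g => 1 < g.1.γ) :=
    { sub := fun _ _ => trivial
      nM := fun g h => h.ne'
      mul := fun g h hg hh => one_lt_mul'' hg hh
      mulM := fun g h hg hh => by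
        show 1 < g.1.γ * h.1.γ
        rwa [hh, mul_one]
      Mmul := fun g h hg hh => by
        show 1 < g.1.γ * h.1.γ
        rwa [hg, one_mul]
      tri := fun g _ hg => (lt_or_gt_of_ne hg).symm.imp id fun h => one_lt_inv'.2 h
      conj := fun g h hg => by
        show 1 < h.1.γ * g.1.γ * h.1.γ⁻¹
        rw [lt_mul_inv_iff_mul_lt, one_mul]
        exact lt_mul_of_one_lt_right' _ hg }
  have c2 := cone_val (G := K) (J := Γ ×ₗ Bool) (fun g => g.1.γ = 1)
    (fun g => g.1.γ = 1 ∧ g.1.v = 0) (fun g p => g.1.v (ofLex p).1 (ofLex p).2) rfl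
    (fun g h hg hh => by simp [hg, hh]) (fun g hg => by simp [hg])
    (fun g h hg => by simp [hg]) (fun g h hg hh j => by simp [hg])
    (fun g => and_congr_right fun _ => ⟨fun h j => by simp [h],
      fun h => funext fun x => funext fun k => h (toLex (x, k))⟩)
    (fun g => (hK g.2).1)
    (fun h => ⟨sh h.1.γ⁻¹, sh_mono _, sh_surj _, fun g hg j => conj_v h.1 g.1 hg _ _⟩)
  have c3 := cone_val (G := K) (J := (Γ ×ₗ Bool) ×ₗ (Γ ×ₗ Bool)) (fun g => g.1.γ = 1 ∧ g.1.v = 0)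
    (fun g => g = 1) (fun g p => g.1.c (ofLex (ofLex p).1).1 (ofLex (ofLex p).1).2
      (ofLex (ofLex p).2).1 (ofLex (ofLex p).2).2) ⟨rfl, rfl⟩
    (fun g h hg hh => ⟨by simp [hg.1, hh.1], by ext; simp [hg.2, hh.2]⟩)
    (fun g hg => ⟨by simp [hg.1], by ext; simp [hg.2]⟩)
    (fun g h hg => ⟨by simp [hg.1], by ext; simp [hg.1, hg.2]⟩)
    (fun g h hg hh j => by simp [hg.1, hg.2])
    (fun g => ⟨fun h => by subst h; exact ⟨⟨rfl, rfl⟩, fun _ => rfl⟩, fun h => by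
      apply Subtype.ext
      ext x k y l
      · exact h.1.1
      · simp [h.1.2]
      · exact h.2 (toLex (toLex (x, k), toLex (y, l)))⟩)
    (fun g => (hK g.2).2)
    (fun h => ⟨fun p => toLex (sh h.1.γ⁻¹ (ofLex p).1, sh h.1.γ⁻¹ (ofLex p).2), ?_, ?_,
      fun g hg j => conj_c h.1 g.1 hg.1 hg.2 _ _ _ _⟩)
  · exact (c1.trans (c2.trans c3 (fun _ h => h.1) (fun g h => by subst h; exact ⟨rfl, rfl⟩))
      (fun _ _ => trivial) (fun g h => by subst h; rfl)).order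
  · intro p q hpq
    rcases Prod.Lex.lt_iff.1 hpq with h | ⟨h1, h2⟩
    · exact Prod.Lex.lt_iff.2 (Or.inl (sh_mono _ h))
    · exact Prod.Lex.lt_iff.2 (Or.inr ⟨congrArg (sh _) h1, sh_mono _ h2⟩)
  · intro p
    obtain ⟨a, ha⟩ := sh_surj h.1.γ⁻¹ (ofLex p).1
    obtain ⟨b, hb⟩ := sh_surj h.1.γ⁻¹ (ofLex p).2
    exact ⟨toLex (a, b), by simp [ha, hb]⟩

end order

end Pool.Agent.H366Z.BO
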