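import Pool.Agent.H366Z.BO.Rig
import Pool.Agent.H366Z.BO.Dyn

/-! The marked groups. -/

set_option autoImplicit false

namespace Pool.Agent.H366Z.BO

open scoped Classical

section gen
variable {κ κ' : F2 → Bool → Bool → ℤ}

noncomputable def gens (κ : F2 → Bool → Bool → ℤ) (i : ℕ) : H κ :=
  if i = 0 then inl s else if i = 1 then inl t else if i = 2 then e 1 false
  else if i = 3 then e 1 true else 1

noncomputable def pi (κ : F2 → Bool → Bool → ℤ) : FreeGroup ℕ →* H κ := FreeGroup.lift (gens κ)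

lemma range_le (L : Subgroup (H κ)) (h1 : ∀ g, inl g ∈ L) (h2 : ∀ k, e 1 k ∈ L) :
    (pi κ).range ≤ L := by
  rw [pi, FreeGroup.range_lift_eq_closure, Subgroup.closure_le]
  rintro _ ⟨i, rfl⟩
  simp only [gens]
  split_ifs
  exacts [h1 _, h1 _, h2 _, h2 _, L.one_mem]

lemma full_pi (κ : F2 → Bool → Bool → ℤ) : Full (pi κ).range := by
  have h0 : ∀ i, gens κ i ∈ (pi κ).range := fun i => ⟨FreeGroup.of i, by simp [pi]⟩
  have h1 : ∀ g, inl g ∈ (pi κ).range := by
    intro g
    induction g using FreeGroup.induction_on with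
    | C1 => rw [map_one]; exact Subgroup.one_mem _
    | of i =>
      fin_cases i
      · exact h0 0
      · exact h0 1
    | inv_of i h => rw [map_inv]; exact Subgroup.inv_mem _ h
    | mul a b ha hb => rw [map_mul]; exact Subgroup.mul_mem _ ha hb
  refine ⟨h1, fun x k => ?_, range_le _ inl_fs fun k => e_fs _ _⟩
  have h2 : e 1 k ∈ (pi κ).range := by
    cases k
    · exact h0 2
    · exact h0 3
  have := Subgroup.mul_mem _ (Subgroup.mul_mem _ (h1 x) h2) (Subgroup.inv_mem _ (h1 x))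
  rwa [conj_e, mul_one] at this

/-- shifting the basis on the right -/
def shiftIso (r : Bool → F2) (h : ∀ g k l, κ' g k l = κ (r k * g * (r l)⁻¹) k l) : H κ ≃* H κ' where
  toFun g := ⟨g.γ, fun x k => g.v (x * (r k)⁻¹) k,
    fun x k y l => g.c (x * (r k)⁻¹) k (y * (r l)⁻¹) l⟩
  invFun g := ⟨g.γ, fun x k => g.v (x * r k) k, fun x k y l => g.c (x * r k) k (y * r l) l⟩
  left_inv g := by ext <;> simp
  right_inv g := by ext <;> simp
  map_mul' a b := by
    ext x k y l
    · rfl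
    · simp [mul_assoc]
    · simp [h, mul_assoc]

lemma shift_range (r : Bool → F2) (h : ∀ g k l, κ' g k l = κ (r k * g * (r l)⁻¹) k l) :
    Nonempty ((pi κ).range ≃* (pi κ').range) := by
  have e1 : ∀ g, shiftIso r h (inl g) = inl g := fun g => rfl
  have e2 : ∀ x k, shiftIso r h (e x k) = e (x * r k) k := by
    intro x k
    ext y l
    · rfl
    · show (e x k : H κ).v (y * (r l)⁻¹) l = _
      rw [e_v, e_v]
      by_cases hl : l = k
      · subst hl; simp [mul_inv_eq_iff_eq_mul]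
      · simp [hl]
    · rfl
  have : (pi κ).range.map (shiftIso r h : H κ →* H κ') = (pi κ').range := by
    apply le_antisymm
    · rw [Subgroup.map_le_iff_le_comap]
      apply range_le
      · intro g
        exact (show shiftIso r h (inl g) ∈ _ from e1 g ▸ (full_pi κ').inl g)
      · intro k
        exact (show shiftIso r h (e 1 k) ∈ _ from e2 1 k ▸ (full_pi κ').e _ _)
    · apply range_le
      · intro g
        exact ⟨inl g, (full_pi κ).inl g, e1 g⟩
      · intro k
        exact ⟨e (r k)⁻¹ k, (full_pi κ).e _ _, (e2 _ k).trans (by rw [inv_mul_cancel])⟩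
  exact ⟨((shiftIso r h).subgroupMap _).trans (MulEquiv.subgroupCongr this)⟩

/-- the map from the group with all commutators -/
def res (κ : F2 → Bool → Bool → ℤ) : H (fun (_ : F2) _ _ => (1 : ℤ)) →* H κ where
  toFun g := ⟨g.γ, g.v, fun x k y l => κ (x⁻¹ * y) k l * g.c x k y l⟩
  map_one' := by ext <;> simp
  map_mul' a b := by
    ext x k y l
    · rfl
    · rfl
    · simp only [mul_c, shift]; ring

lemma pi_res (κ : F2 → Bool → Bool → ℤ) : pi κ = (res κ).comp (pi _) := by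
  apply FreeGroup.ext_hom
  intro i
  simp only [pi, MonoidHom.comp_apply, FreeGroup.lift_apply_of, gens]
  split_ifs <;> ext <;> simp [res, e_v]

lemma pi_eq_one (κ : F2 → Bool → Bool → ℤ) (w : FreeGroup ℕ) : pi κ w = 1 ↔
    ((pi (fun _ _ _ => 1) w).γ = 1 ∧ (pi (fun _ _ _ => 1) w).v = 0) ∧
      ∀ x k y l, κ (x⁻¹ * y) k l = 0 ∨ (pi (fun _ _ _ => 1) w).c x k y l = 0 := by
  rw [pi_res κ, MonoidHom.comp_apply]
  constructor
  · intro h
    exact ⟨⟨congrArg H.γ h, congrArg H.v h⟩, fun x k y l =>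
      mul_eq_zero.1 (congrArg (fun z => H.c z x k y l) h)⟩
  · intro h
    ext x k y l
    · exact h.1.1
    · exact congrFun (congrFun h.1.2 x) k
    · exact mul_eq_zero.2 (h.2 x k y l)

end gen

theorem family : ∃ κ : Set F2 → F2 → Bool → Bool → ℤ,
    (∀ S, ∃ o : LinearOrder (pi (κ S)).range,
      ∀ a b c : (pi (κ S)).range, o.le a b → o.le (c * a) (c * b) ∧ o.le (a * c) (b * c)) ∧
    (∀ g k l, (∀ S, κ S g k l = 0 ↔ g ∈ S) ∨ ∃ z, ∀ S, κ S g k l = z) ∧
    ∀ S T, (∃ z, z ∉ S) → (∃ z, z ∉ T) →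
      (Nonempty ((pi (κ S)).range ≃* (pi (κ T)).range) ↔ ∃ h, ∀ g, g ∈ S ↔ g * h ∈ T) := by
  obtain ⟨o, ho⟩ := f2_order
  have : MulLeftMono F2 := ⟨fun c a b h => (ho a b c h).1⟩
  have : MulRightMono F2 := ⟨fun c a b h => (ho a b c h).2⟩
  refine ⟨fun S => kap {g | g ∈ Rl} S, fun S => fs_order _ (full_pi _).fs, fun g k l => ?_,
    fun S T hS hT => ⟨fun ⟨φ⟩ => ?_, fun ⟨h, hh⟩ => ?_⟩⟩
  · cases k
    · cases l
      · exact Or.inr ⟨_, fun S => rfl⟩
      · left; intro S; simp [kap]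
    · exact Or.inr ⟨0, fun S => rfl⟩
  · obtain ⟨ρ, hρ⟩ : ∃ ρ : F2, 1 < ρ ∧ ρ ∉ {g | g ∈ Rl} := by
      rcases lt_or_gt_of_ne R_tt.2.2 with l | l
      · exact ⟨_, one_lt_inv'.2 l, R_tt.2.1⟩
      · exact ⟨_, l, R_tt.1⟩
    exact rigid (full_pi _) (full_pi _) R_symm R_one ρ hρ R_rig hS hT φ
  · refine shift_range (fun k => if k then h else 1) fun g k l => ?_
    cases k
    · cases l
      · simp [kap]
      · simp [kap, hh]
    · rfl

end Pool.Agent.H366Z.BO
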