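import Mathlib

/-! A bi-invariant order on the free group of rank two, and a rigid finite subset. -/

set_option autoImplicit false

namespace Pool.Agent.H366Z.BO

open Polynomial

/-- a conjugation invariant positive cone relative to a pair of normal subgroups `M ≤ N` -/
structure Cone {G : Type} [Group G] (N M P : G → Prop) : Prop where
  sub : ∀ g, P g → N g
  nM : ∀ g, P g → ¬ M g
  mul : ∀ g h, P g → P h → P (g * h)
  mulM : ∀ g h, P g → M h → P (g * h)
  Mmul : ∀ g h, M g → P h → P (g * h)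
  tri : ∀ g, N g → ¬ M g → P g ∨ P g⁻¹
  conj : ∀ g h, P g → P (h * g * h⁻¹)

lemma Cone.trans {G : Type} [Group G] {N M L P Q : G → Prop} (h1 : Cone N M P) (h2 : Cone M L Q)
    (hMN : ∀ g, M g → N g) (hLM : ∀ g, L g → M g) : Cone N L (fun g => P g ∨ Q g) where
  sub g h := h.elim (h1.sub g) fun h => hMN g (h2.sub g h)
  nM g h := h.elim (fun h hl => h1.nM g h (hLM g hl)) (h2.nM g)
  mul g h hg hh := by
    rcases hg with hg | hg <;> rcases hh with hh | hh
    · exact Or.inl (h1.mul g h hg hh)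
    · exact Or.inl (h1.mulM g h hg (h2.sub h hh))
    · exact Or.inl (h1.Mmul g h (h2.sub g hg) hh)
    · exact Or.inr (h2.mul g h hg hh)
  mulM g h hg hh := hg.elim (fun hg => Or.inl (h1.mulM g h hg (hLM h hh)))
    fun hg => Or.inr (h2.mulM g h hg hh)
  Mmul g h hg hh := hh.elim (fun hh => Or.inl (h1.Mmul g h (hLM g hg) hh))
    fun hh => Or.inr (h2.Mmul g h hg hh)
  tri g hN hL := by
    by_cases hM : M g
    · exact (h2.tri g hM hL).imp Or.inr Or.inr
    · exact (h1.tri g hN hM).imp Or.inl Or.inl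
  conj g h hg := hg.imp (h1.conj g h) (h2.conj g h)

lemma Cone.order {G : Type} [Group G] {P : G → Prop} (h : Cone (fun _ => True) (fun g => g = 1) P) :
    ∃ o : LinearOrder G, ∀ a b c : G, o.le a b → o.le (c * a) (c * b) ∧ o.le (a * c) (b * c) := by
  have h1 : ¬ P 1 := fun hp => h.nM 1 hp rfl
  have irr : ∀ a b : G, P (b * a⁻¹) → ¬ P (a * b⁻¹) := fun a b h2 h3 => by
    have := h.mul _ _ h2 h3
    rw [show b * a⁻¹ * (a * b⁻¹) = 1 by group] at this
    exact h1 this
  let o : LinearOrder G :=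
    { le := fun a b => a = b ∨ P (b * a⁻¹)
      le_refl := fun a => Or.inl rfl
      le_trans := by
        rintro a b c (rfl | h2) (rfl | h3)
        · exact Or.inl rfl
        · exact Or.inr h3
        · exact Or.inr h2
        · right
          have := h.mul _ _ h3 h2
          rwa [show c * b⁻¹ * (b * a⁻¹) = c * a⁻¹ by group] at this
      le_antisymm := by
        rintro a b (rfl | h2) (h3 | h3)
        · rfl
        · rfl
        · exact h3.symm
        · exact absurd h3 (irr _ _ h2)
      le_total := by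
        intro a b
        by_cases hab : b * a⁻¹ = 1
        · exact Or.inl (Or.inl (mul_inv_eq_one.1 hab).symm)
        · rcases h.tri _ trivial hab with h | h
          · exact Or.inl (Or.inr h)
          · right; right
            rwa [show (b * a⁻¹)⁻¹ = a * b⁻¹ by group] at h
      toDecidableLE := Classical.decRel _ }
  refine ⟨o, fun a b c hab => ?_⟩
  rcases hab with rfl | hab
  · exact ⟨Or.inl rfl, Or.inl rfl⟩
  · refine ⟨Or.inr ?_, Or.inr ?_⟩
    · have := h.conj _ c hab
      rwa [show c * (b * a⁻¹) * c⁻¹ = c * b * (c * a)⁻¹ by group] at this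
    · rwa [show b * c * (a * c)⁻¹ = b * a⁻¹ by group]

/-- leading coefficient data at the bottom of a polynomial -/
def Lead {R : Type} [Ring R] (u : R[X]) (k : ℕ) (a : R) : Prop :=
  ∃ w : R[X], u = X ^ k * w ∧ w.coeff 0 = a

lemma Lead.left {R : Type} [Ring R] {u p : R[X]} {k : ℕ} {a : R} (h : Lead u k a)
    (hp : p.coeff 0 = 1) : Lead (p * u) k a := by
  obtain ⟨w, rfl, rfl⟩ := h
  exact ⟨p * w, by rw [← mul_assoc, ← X_pow_mul, mul_assoc], by rw [mul_coeff_zero, hp, one_mul]⟩

lemma Lead.right {R : Type} [Ring R] {u p : R[X]} {k : ℕ} {a : R} (h : Lead u k a)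
    (hp : p.coeff 0 = 1) : Lead (u * p) k a := by
  obtain ⟨w, rfl, rfl⟩ := h
  exact ⟨w * p, by rw [mul_assoc], by rw [mul_coeff_zero, hp, mul_one]⟩

lemma Lead.add {R : Type} [Ring R] {u v : R[X]} {k l : ℕ} {a b : R} (h : Lead u k a)
    (h' : Lead v l b) : Lead (u + v) k a ∨ Lead (u + v) l b ∨ Lead (u + v) k (a + b) := by
  obtain ⟨w, rfl, rfl⟩ := h
  obtain ⟨w', rfl, rfl⟩ := h'
  rcases lt_trichotomy k l with hk | rfl | hk
  · obtain ⟨d, rfl⟩ := Nat.exists_eq_add_of_lt hk
    exact Or.inl ⟨w + X * (X ^ d * w'), by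
      rw [mul_add, pow_succ, pow_add, mul_assoc, mul_assoc, ← mul_assoc X, ← pow_succ',
        ← mul_assoc (X ^ d), ← pow_succ], by simp⟩
  · exact Or.inr (Or.inr ⟨w + w', by rw [mul_add], by simp⟩)
  · obtain ⟨d, rfl⟩ := Nat.exists_eq_add_of_lt hk
    exact Or.inr (Or.inl ⟨X * (X ^ d * w) + w', by
      rw [mul_add, pow_succ, pow_add, mul_assoc, mul_assoc, ← mul_assoc X, ← pow_succ',
        ← mul_assoc (X ^ d), ← pow_succ], by simp⟩)

lemma lead_exists {R : Type} [Ring R] (u : R[X]) (hu : u ≠ 0) : ∃ k a, a ≠ 0 ∧ Lead u k a := by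
  have h : X ^ u.natTrailingDegree ∣ u :=
    X_pow_dvd_iff.2 fun d hd => coeff_eq_zero_of_lt_natTrailingDegree hd
  obtain ⟨w, hw⟩ := h
  refine ⟨u.natTrailingDegree, w.coeff 0, ?_, w, hw, rfl⟩
  have h1 : u.coeff u.natTrailingDegree = w.coeff 0 := by
    have := coeff_X_pow_mul w u.natTrailingDegree 0
    rwa [← hw, zero_add] at this
  rw [← h1]
  exact trailingCoeff_nonzero_iff_nonzero.2 hu

lemma cone_of_poly {G R : Type} [Group G] [Ring R] (pos : R → Prop) (p0 : ¬ pos 0)
    (padd : ∀ a b, pos a → pos b → pos (a + b)) (ptri : ∀ a, a ≠ 0 → pos a ∨ pos (-a))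
    (ρ : G →* R[X]) (hρ : ∀ g, ρ g = 1 → g = 1) (h0 : ∀ g, (ρ g).coeff 0 = 1) :
    Cone (fun _ : G => True) (fun g => g = 1) (fun g => ∃ k a, pos a ∧ Lead (ρ g - 1) k a) where
  sub _ _ := trivial
  nM g h hg := by
    obtain ⟨k, a, ha, w, hw, rfl⟩ := h
    rw [hg, map_one, sub_self] at hw
    have := congrArg (fun p => coeff p (0 + k)) hw
    simp only [coeff_zero, coeff_X_pow_mul] at this
    rw [← this] at ha
    exact p0 ha
  mul g h hg hh := by
    obtain ⟨k, a, ha, h1⟩ := hg
    obtain ⟨l, b, hb, h2⟩ := hh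
    have e : ρ (g * h) - 1 = (ρ g - 1) * ρ h + (ρ h - 1) := by rw [map_mul]; noncomm_ring
    rw [e]
    rcases (h1.right (h0 h)).add h2 with h | h | h
    · exact ⟨_, _, ha, h⟩
    · exact ⟨_, _, hb, h⟩
    · exact ⟨_, _, padd _ _ ha hb, h⟩
  mulM g h hg hh := by rw [hh, mul_one]; exact hg
  Mmul g h hg hh := by rw [hg, one_mul]; exact hh
  tri g _ hg := by
    obtain ⟨k, a, ha, h⟩ := lead_exists (ρ g - 1) fun h => hg (hρ g (sub_eq_zero.1 h))
    rcases ptri a ha with hp | hp
    · exact Or.inl ⟨k, a, hp, h⟩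
    · refine Or.inr ⟨k, -a, hp, ?_⟩
      obtain ⟨w, hw, hw0⟩ := h.left (h0 g⁻¹)
      refine ⟨-w, ?_, by simp [hw0]⟩
      rw [mul_neg, ← hw, mul_sub, ← map_mul, inv_mul_cancel, map_one, mul_one, neg_sub]
  conj g h hg := by
    obtain ⟨k, a, ha, h1⟩ := hg
    refine ⟨k, a, ha, ?_⟩
    have e : ρ (h * g * h⁻¹) - 1 = ρ h * (ρ g - 1) * ρ h⁻¹ := by
      rw [mul_sub, sub_mul, mul_one, ← map_mul, ← map_mul, ← map_mul, mul_inv_cancel, map_one]
    rw [e]
    exact (h1.left (h0 h)).right (h0 h⁻¹)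

def gA : GL (Fin 2) ℚ :=
  ⟨!![1, 2; 0, 1], !![1, -2; 0, 1],
    by ext i j; fin_cases i <;> fin_cases j <;> norm_num [Matrix.mul_apply, Fin.sum_univ_two],
    by ext i j; fin_cases i <;> fin_cases j <;> norm_num [Matrix.mul_apply, Fin.sum_univ_two]⟩

def gB : GL (Fin 2) ℚ :=
  ⟨!![1, 0; 2, 1], !![1, 0; -2, 1],
    by ext i j; fin_cases i <;> fin_cases j <;> norm_num [Matrix.mul_apply, Fin.sum_univ_two],
    by ext i j; fin_cases i <;> fin_cases j <;> norm_num [Matrix.mul_apply, Fin.sum_univ_two]⟩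

def XX : Fin 2 → Set (OnePoint ℚ) :=
  ![{z | z.elim True (fun t => 1 < t)}, {z | z.elim False (fun t => 0 ≤ t ∧ t ≤ 1)}]

def YY : Fin 2 → Set (OnePoint ℚ) :=
  ![{z | z.elim False (fun t => t ≤ -1)}, {z | z.elim False (fun t => -1 < t ∧ t < 0)}]

open scoped Function Pointwise in
theorem rho_injective : Function.Injective (FreeGroup.lift ![gA, gB]) := by
  apply FreeGroup.injective_lift_of_ping_pong ![gA, gB] XX YY
  · intro i
    fin_cases i
    · exact ⟨OnePoint.infty, by simp [XX]⟩
    · exact ⟨((0 : ℚ) : OnePoint ℚ), by simp [XX]⟩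
  · intro i j hij
    rw [Function.onFun, Set.disjoint_left]
    intro z h1 h2
    induction z using OnePoint.rec <;> fin_cases i <;> fin_cases j <;> simp_all [XX] <;> linarith
  · intro i j hij
    rw [Function.onFun, Set.disjoint_left]
    intro z h1 h2
    induction z using OnePoint.rec <;> fin_cases i <;> fin_cases j <;> simp_all [YY] <;> linarith
  · intro i j
    rw [Set.disjoint_left]
    intro z h1 h2
    induction z using OnePoint.rec <;> fin_cases i <;> fin_cases j <;> simp_all [XX, YY] <;> linarith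
  · intro i
    rw [Set.smul_set_subset_iff]
    intro z hz
    induction z using OnePoint.rec with
    | infty =>
      rw [OnePoint.smul_infty_eq_ite]
      fin_cases i <;> simp_all [XX, YY, gA, gB]
      norm_num
    | coe t =>
      rw [OnePoint.smul_some_eq_ite]
      fin_cases i <;> simp_all [XX, YY, gA, gB]
      · linarith
      · rcases le_or_gt t (-1) with h | h
        · have h1 : 2 * t + 1 < 0 := by linarith
          rw [if_neg h1.ne]
          simp only [OnePoint.elim_some]
          exact ⟨div_nonneg_of_nonpos (by linarith) h1.le, by rw [div_le_one_of_neg h1]; linarith⟩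
        · have h0 := hz h
          have h1 : 0 < 2 * t + 1 := by linarith
          rw [if_neg h1.ne']
          simp only [OnePoint.elim_some]
          exact ⟨div_nonneg h0 h1.le, by rw [div_le_one h1]; linarith⟩
  · intro i
    rw [Set.smul_set_subset_iff]
    intro z hz
    induction z using OnePoint.rec with
    | infty =>
      rw [OnePoint.smul_infty_eq_ite]
      fin_cases i <;> simp_all [XX, YY, gA, gB]
      norm_num
    | coe t =>
      rw [OnePoint.smul_some_eq_ite]
      fin_cases i <;> simp_all [XX, YY, gA, gB]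
      · linarith
      · rcases lt_or_ge t 0 with h | h
        · have h1 : 0 < -(2 * t) + 1 := by linarith
          rw [if_neg h1.ne']
          simp only [OnePoint.elim_some]
          exact ⟨by rw [lt_div_iff₀ h1]; linarith, div_neg_of_neg_of_pos h h1⟩
        · have h0 := hz h
          have h1 : -(2 * t) + 1 < 0 := by linarith
          rw [if_neg h1.ne]
          simp only [OnePoint.elim_some]
          exact ⟨by rw [lt_div_iff_of_neg h1]; linarith, div_neg_of_pos_of_neg (by linarith) h1⟩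

abbrev M2 := Matrix (Fin 2) (Fin 2) ℚ

noncomputable def un (E : M2) (hE : E * E = 0) : (M2[X])ˣ :=
  ⟨1 + C E * X, 1 - C E * X,
    by
      have : C E * X * (C E * X) = 0 := by
        rw [mul_assoc, ← mul_assoc X, X_mul, ← mul_assoc, ← mul_assoc, ← C_mul, hE]; simp
      rw [add_mul, mul_sub, mul_sub, this]; simp,
    by
      have : C E * X * (C E * X) = 0 := by
        rw [mul_assoc, ← mul_assoc X, X_mul, ← mul_assoc, ← mul_assoc, ← C_mul, hE]; simp
      rw [sub_mul, mul_add, mul_add, this]; simp⟩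

lemma sqA : (!![0, 1; 0, 0] : M2) * !![0, 1; 0, 0] = 0 := by
  ext i j; fin_cases i <;> fin_cases j <;> simp [Matrix.mul_apply, Fin.sum_univ_two]

lemma sqB : (!![0, 0; 1, 0] : M2) * !![0, 0; 1, 0] = 0 := by
  ext i j; fin_cases i <;> fin_cases j <;> simp [Matrix.mul_apply, Fin.sum_univ_two]

abbrev F2 := FreeGroup (Fin 2)

noncomputable def rhoP : F2 →* (M2[X])ˣ := FreeGroup.lift ![un _ sqA, un _ sqB]

noncomputable def evAt (q : ℚ) : M2[X] →+* M2 :=
  eval₂RingHom' (RingHom.id M2) (algebraMap ℚ M2 q) fun a => (Algebra.commutes q a).symm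

lemma evAt_un (q : ℚ) (E : M2) : evAt q (1 + C E * X) = 1 + q • E := by
  rw [map_add, map_one, map_mul]
  have h1 : evAt q (C E) = E := by simp [evAt]
  have h2 : evAt q X = algebraMap ℚ M2 q := by simp [evAt]
  rw [h1, h2, ← Algebra.commutes, ← Algebra.smul_def]

theorem f2_order : ∃ o : LinearOrder F2,
    ∀ a b c : F2, o.le a b → o.le (c * a) (c * b) ∧ o.le (a * c) (b * c) := by
  let key : M2 → ℚ ×ₗ ℚ ×ₗ ℚ ×ₗ ℚ := fun A => toLex (A 0 0, toLex (A 0 1, toLex (A 1 0, A 1 1)))
  have kadd : ∀ A B, key (A + B) = key A + key B := fun A B => rfl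
  have kneg : ∀ A, key (-A) = -key A := fun A => rfl
  have k0 : key 0 = 0 := rfl
  have kinj : ∀ A, key A = 0 → A = 0 := by
    intro A h
    have h1 : A 0 0 = 0 := congrArg (fun z => (ofLex z).1) h
    have h2 : A 0 1 = 0 := congrArg (fun z => (ofLex (ofLex z).2).1) h
    have h3 : A 1 0 = 0 := congrArg (fun z => (ofLex (ofLex (ofLex z).2).2).1) h
    have h4 : A 1 1 = 0 := congrArg (fun z => (ofLex (ofLex (ofLex z).2).2).2) h
    ext i j; fin_cases i <;> fin_cases j <;> assumption
  refine (cone_of_poly (fun A => 0 < key A) (by rw [k0]; exact lt_irrefl _)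
    (fun A B hA hB => by rw [kadd]; exact add_pos hA hB)
    (fun A hA => by
      rw [kneg, neg_pos]
      exact (lt_or_gt_of_ne fun h => hA (kinj A h.symm)))
    ((Units.coeHom _).comp rhoP) ?_ ?_).order
  · intro g hg
    have e : (Units.map (evAt 2).toMonoidHom).comp rhoP = FreeGroup.lift ![gA, gB] := by
      apply FreeGroup.ext_hom
      intro i
      apply Units.ext
      fin_cases i
      · simp only [rhoP, MonoidHom.comp_apply, FreeGroup.lift_apply_of]
        show evAt 2 (1 + C _ * X) = _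
        rw [evAt_un]
        ext i j; fin_cases i <;> fin_cases j <;> simp [gA]
      · simp only [rhoP, MonoidHom.comp_apply, FreeGroup.lift_apply_of]
        show evAt 2 (1 + C _ * X) = _
        rw [evAt_un]
        ext i j; fin_cases i <;> fin_cases j <;> simp [gB]
    apply rho_injective
    rw [← e, map_one]
    have : rhoP g = 1 := Units.ext hg
    rw [MonoidHom.comp_apply, this, map_one]
  · intro g
    have e : (Units.map (constantCoeff (R := M2)).toMonoidHom).comp rhoP = 1 := by
      apply FreeGroup.ext_hom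
      intro i
      apply Units.ext
      fin_cases i
      · simp only [rhoP, MonoidHom.comp_apply, FreeGroup.lift_apply_of]
        show constantCoeff (1 + C _ * X) = 1
        simp
      · simp only [rhoP, MonoidHom.comp_apply, FreeGroup.lift_apply_of]
        show constantCoeff (1 + C _ * X) = 1
        simp
    have := congrArg Units.val (DFunLike.congr_fun e g)
    exact this

def s : F2 := FreeGroup.of 0
def t : F2 := FreeGroup.of 1

/-- the rigid set -/
def Rl : List F2 := [s, s⁻¹, s * s, (s * s)⁻¹, t, t⁻¹, t * t * t, (t * t * t)⁻¹, s * t, (s * t)⁻¹]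

lemma R_symm : ∀ g ∈ Rl, g⁻¹ ∈ Rl := by decide
lemma R_one : (1 : F2) ∉ Rl := by decide
lemma R_tt : t * t ∉ Rl ∧ (t * t)⁻¹ ∉ Rl ∧ t * t ≠ 1 := by decide
lemma R_rig0 : ∀ x ∈ Rl, ∀ y ∈ Rl, x * x ∈ Rl → y * y * y ∈ Rl → x * y ∈ Rl → x = s ∧ y = t := by
  decide

lemma R_rig (θ : F2 →* F2) (h : ∀ r ∈ Rl, θ r ∈ Rl) (g : F2) : θ g = g := by
  obtain ⟨h1, h2⟩ := R_rig0 (θ s) (h _ (by simp [Rl])) (θ t) (h _ (by simp [Rl]))
    (by rw [← map_mul]; exact h _ (by simp [Rl]))
    (by rw [← map_mul, ← map_mul]; exact h _ (by simp [Rl]))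
    (by rw [← map_mul]; exact h _ (by simp [Rl]))
  have : θ = MonoidHom.id _ := by
    apply FreeGroup.ext_hom
    intro i
    fin_cases i
    · exact h1
    · exact h2
  rw [this]; rfl

end Pool.Agent.H366Z.BO
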