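import Pool.Agent.H366Z.BO.Grp

/-! Rigidity: the group remembers the subset `S` up to a right shift. -/

set_option autoImplicit false
set_option linter.unusedSectionVars false

namespace Pool.Agent.H366Z.BO

open scoped Classical commutatorElement

variable {Γ : Type} [Group Γ] [LinearOrder Γ] [MulLeftMono Γ] [MulRightMono Γ]

noncomputable def kap (R S : Set Γ) (g : Γ) : Bool → Bool → ℤ
  | false, false => if 1 < g ∧ g ∉ R then 1 else 0
  | false, true => if g ∈ S then 0 else 1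
  | true, _ => 0

structure Full {κ : Γ → Bool → Bool → ℤ} (K : Subgroup (H κ)) : Prop where
  inl : ∀ g, inl g ∈ K
  e : ∀ x k, e x k ∈ K
  fs : K ≤ Fs κ

/-- supported exactly at one point -/
def At (w : Γ → ℤ) (x : Γ) : Prop := w x ≠ 0 ∧ ∀ y, y ≠ x → w y = 0

lemma unit_lemma (s : Finset Γ) (θ : Γ → Γ) (hθ : Function.Injective θ) (u w : Γ → ℤ)
    (hw : {y | w y ≠ 0}.Finite)
    (h : ∀ x, ∑ δ ∈ s, u δ * w ((θ δ)⁻¹ * x) = if x = 1 then 1 else 0) : ∃ g, At w g := by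
  have hfin : {δ | δ ∈ s ∧ u δ ≠ 0}.Finite := s.finite_toSet.subset fun δ h => h.1
  have h1 := h 1
  rw [if_pos rfl] at h1
  obtain ⟨δ0, hδ0, hne⟩ := Finset.exists_ne_zero_of_sum_ne_zero (h1.trans_ne one_ne_zero)
  have n1 : {δ | δ ∈ s ∧ u δ ≠ 0}.Nonempty := ⟨δ0, hδ0, left_ne_zero_of_mul hne⟩
  have n2 : {y | w y ≠ 0}.Nonempty := ⟨_, right_ne_zero_of_mul hne⟩
  obtain ⟨a, ha, ha'⟩ := Set.exists_max_image _ θ hfin n1
  obtain ⟨b, hb, hb'⟩ := Set.exists_min_image _ θ hfin n1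
  obtain ⟨M, hM, hM'⟩ := Set.exists_max_image _ id hw n2
  obtain ⟨m, hm, hm'⟩ := Set.exists_min_image _ id hw n2
  have e1 : θ a * M = 1 := by
    by_contra hn
    have := h (θ a * M)
    rw [if_neg hn, Finset.sum_eq_single a, inv_mul_cancel_left] at this
    · exact mul_ne_zero ha.2 hM this
    · intro δ hδ hδa
      by_contra hc
      have l1 : θ δ < θ a := lt_of_le_of_ne (ha' δ ⟨hδ, left_ne_zero_of_mul hc⟩) (hθ.ne hδa)
      have l2 : (θ δ)⁻¹ * (θ a * M) ≤ M := hM' _ (right_ne_zero_of_mul hc)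
      rw [inv_mul_le_iff_le_mul] at l2
      exact (le_of_mul_le_mul_right' l2).not_gt l1
    · intro h'; exact absurd ha.1 h'
  have e2 : θ b * m = 1 := by
    by_contra hn
    have := h (θ b * m)
    rw [if_neg hn, Finset.sum_eq_single b, inv_mul_cancel_left] at this
    · exact mul_ne_zero hb.2 hm this
    · intro δ hδ hδa
      by_contra hc
      have l1 : θ b < θ δ := lt_of_le_of_ne (hb' δ ⟨hδ, left_ne_zero_of_mul hc⟩) (hθ.ne hδa).symm
      have l2 : m ≤ (θ δ)⁻¹ * (θ b * m) := hm' _ (right_ne_zero_of_mul hc)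
      rw [le_inv_mul_iff_mul_le] at l2
      exact (le_of_mul_le_mul_right' l2).not_gt l1
    · intro h'; exact absurd hb.1 h'
  have e3 : M ≤ m := by
    by_contra hn
    have l1 : θ b * m < θ a * M := mul_lt_mul_of_le_of_lt (ha' b hb) (not_le.1 hn)
    rw [e1, e2] at l1
    exact lt_irrefl _ l1
  exact ⟨M, hM, fun y hy => by_contra fun hc =>
    hy (le_antisymm (hM' y hc) (e3.trans (hm' y hc)))⟩

variable {κ : Γ → Bool → Bool → ℤ}

lemma comm_γ (g h : H κ) (hh : g.γ = 1 ∨ h.γ = 1) : (⁅g, h⁆ : H κ).γ = 1 := by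
  rcases hh with hh | hh <;> simp [commutatorElement_def, hh]

lemma comm_v (g h : H κ) (hh : h.γ = 1) (x k) :
    (⁅g, h⁆ : H κ).v x k = h.v (g.γ⁻¹ * x) k - h.v x k := by
  rw [commutatorElement_def, mul_v, conj_v g h hh]
  simp [hh, sub_eq_add_neg]

lemma char1 {K : Subgroup (H κ)} (hK : Full K) (g : K) :
    g.1.γ = 1 ↔ ∀ h : K, ⁅g, ⁅g, ⁅g, h⁆⁆⁆ = 1 := by
  constructor
  · intro hg h
    apply Subtype.ext
    show ⁅g.1, ⁅g.1, ⁅g.1, h.1⁆⁆⁆ = 1
    have a1 := comm_γ g.1 h.1 (Or.inl hg)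
    have a2 := comm_γ g.1 ⁅g.1, h.1⁆ (Or.inl hg)
    rw [commutatorElement_eq_one_iff_mul_comm, comm_iff _ _ hg a2]
    intro x k y l
    simp [comm_v _ _ a1, hg]
  · intro h
    by_contra hg
    have h1 : ⁅g.1, ⁅g.1, ⁅g.1, (e 1 false : H κ)⁆⁆⁆ = (1 : H κ) :=
      congrArg Subtype.val (h ⟨_, hK.e 1 false⟩)
    have a1 := comm_γ g.1 (e 1 false) (Or.inr rfl)
    have a2 := comm_γ g.1 _ (Or.inr a1)
    have h2 := congrArg (fun z => H.v z 1 false) h1
    simp only [comm_v _ _ a2, comm_v _ _ a1, comm_v _ _ (e_γ (κ := κ) 1 false), e_v, one_v] at h2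
    have b : g.1.γ⁻¹ ≠ 1 ∧ g.1.γ⁻¹ * g.1.γ⁻¹ ≠ 1 ∧ g.1.γ⁻¹ * (g.1.γ⁻¹ * g.1.γ⁻¹) ≠ 1 := by
      rcases lt_or_gt_of_ne (inv_ne_one.2 hg) with l | l
      · exact ⟨l.ne, (mul_lt_one' l l).ne, (mul_lt_one' l (mul_lt_one' l l)).ne⟩
      · exact ⟨l.ne', (one_lt_mul'' l l).ne', (one_lt_mul'' l (one_lt_mul'' l l)).ne'⟩
    simp only [mul_one, b.1, b.2.1, b.2.2, false_and, if_false, and_self, if_true] at h2
    omega

variable {R S T : Set Γ}

lemma comm_B (g h : H (kap R S)) (hg : g.γ = 1) (hh : h.γ = 1) (g0 : ∀ x, g.v x false = 0)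
    (h0 : ∀ x, h.v x false = 0) : g * h = h * g := by
  rw [comm_iff _ _ hg hh]
  intro x k y l
  cases k <;> simp [kap, g0, h0]

lemma char3 {K : Subgroup (H (kap R S))} (hK : Full K) (ρ : Γ) (hρ : 1 < ρ ∧ ρ ∉ R) (g : K)
    (hg : g.1.γ = 1) :
    (∀ x, g.1.v x false = 0) ↔ ∀ h : K, g * (h * g * h⁻¹) = (h * g * h⁻¹) * g := by
  constructor
  · intro g0 h
    apply Subtype.ext
    exact comm_B g.1 (h.1 * g.1 * h.1⁻¹) hg (by simp [hg]) g0 fun x => by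
      rw [conj_v _ _ hg, g0]
  · intro h
    by_contra hn
    push Not at hn
    have hfin : {x | g.1.v x false ≠ 0}.Finite :=
      ((hK.fs g.2).1.image Prod.fst).subset fun x hx => ⟨(x, false), hx, rfl⟩
    obtain ⟨δ, hδ, hδ'⟩ := Set.exists_max_image _ id hfin hn
    have h1 : g.1 * (inl (δ * ρ * δ⁻¹) * g.1 * (inl (δ * ρ * δ⁻¹))⁻¹) =
        (inl (δ * ρ * δ⁻¹) * g.1 * (inl (δ * ρ * δ⁻¹))⁻¹) * g.1 :=
      congrArg Subtype.val (h ⟨_, hK.inl _⟩)
    have h2 := (comm_iff _ _ hg (by simp [hg])).1 h1 δ false (δ * ρ) false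
    have h3 : g.1.v (δ * ρ) false = 0 := by
      by_contra hc
      exact (hδ' _ hc).not_gt (lt_mul_of_one_lt_right' δ hρ.1)
    rw [conj_v _ _ hg, h3, inl_γ, show (δ * ρ * δ⁻¹)⁻¹ * (δ * ρ) = δ by group,
      inv_mul_cancel_left] at h2
    simp only [kap, hρ, not_false_eq_true, and_self, if_true, one_mul, mul_zero] at h2
    exact mul_ne_zero hδ hδ h2

lemma comm_ab (g h : H (kap R S)) (hg : g.γ = 1) (hh : h.γ = 1) (a b : Γ)
    (ga : At (fun x => g.v x false) a) (h0 : ∀ x, h.v x false = 0)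
    (hb : At (fun x => h.v x true) b) : g * h = h * g ↔ a⁻¹ * b ∈ S := by
  rw [comm_iff _ _ hg hh]
  constructor
  · intro e
    by_contra hc
    have := e a false b true
    simp only [kap, hc, if_false, one_mul, h0, mul_zero, zero_mul] at this
    exact mul_ne_zero ga.1 hb.1 this
  · intro hS x k y l
    cases k
    · cases l
      · simp [h0]
      · by_cases hx : x = a
        · by_cases hy : y = b
          · simp [kap, hx, hy, hS]
          · simp [h0, hb.2 y hy]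
        · simp [h0, ga.2 x hx]
    · simp [kap]

lemma comm_aa (hR : ∀ g ∈ R, g⁻¹ ∈ R) (g h : H (kap R S)) (hg : g.γ = 1) (hh : h.γ = 1) (a b : Γ)
    (hab : a ≠ b) (ga : At (fun x => g.v x false) a) (hb : At (fun x => h.v x false) b)
    (e : g * h = h * g) : a⁻¹ * b ∈ R := by
  rw [comm_iff _ _ hg hh] at e
  have e1 := e a false b false
  have e2 := e b false a false
  rw [show g.v b false = 0 from ga.2 b hab.symm] at e1 e2
  by_contra hc
  have hc' : b⁻¹ * a ∉ R := fun h => hc (by simpa using hR _ h)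
  rcases lt_or_gt_of_ne hab with l | l
  · have l' : 1 < a⁻¹ * b := by rwa [lt_inv_mul_iff_mul_lt, mul_one]
    simp only [kap, hc, l', not_false_eq_true, and_self, if_true, one_mul, mul_zero] at e1
    exact mul_ne_zero ga.1 hb.1 e1
  · have l' : 1 < b⁻¹ * a := by rwa [lt_inv_mul_iff_mul_lt, mul_one]
    simp only [kap, hc', l', not_false_eq_true, and_self, if_true, one_mul, zero_mul] at e2
    exact mul_ne_zero hb.1 ga.1 e2.symm

lemma at_e (x : Γ) (k : Bool) : At (fun y => (e x k : H κ).v y k) x :=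
  ⟨by simp [e_v], fun y hy => by simp [e_v, hy]⟩

lemma comm_e (hR : ∀ g ∈ R, g⁻¹ ∈ R) (r : Γ) (hr : r ∈ R) :
    (e 1 false * e r false : H (kap R S)) = e r false * e 1 false := by
  rw [comm_iff _ _ rfl rfl]
  intro x k y l
  simp only [e_v]
  have := hR r hr
  split_ifs with h1 h2 h3 h4 h5 h6 h7 h8 h9 <;> simp_all [kap]

lemma char2 {K : Subgroup (H (kap R S))} (hK : Full K) (ρ : Γ) (hρ : 1 < ρ ∧ ρ ∉ R)
    (hS : ∃ z, z ∉ S) (g : K) (hg : g.1.γ = 1) :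
    g.1.v = 0 ↔ ∀ h : K, h.1.γ = 1 → g * h = h * g := by
  constructor
  · intro g0 h hh
    apply Subtype.ext
    show g.1 * h.1 = h.1 * g.1
    rw [comm_iff _ _ hg hh]
    simp [g0]
  · intro h
    have g0 := (char3 hK ρ hρ g hg).2 fun k => h _ (by simp [hg])
    obtain ⟨z, hz⟩ := hS
    funext x k
    cases k
    · exact g0 x
    · have h1 : g.1 * e (x * z⁻¹) false = e (x * z⁻¹) false * g.1 :=
        congrArg Subtype.val (h ⟨_, hK.e _ _⟩ rfl)
      have h2 := (comm_iff _ _ hg rfl).1 h1 (x * z⁻¹) false x true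
      rw [show (x * z⁻¹)⁻¹ * x = z by group] at h2
      simpa [kap, hz, g0, e_v] using h2.symm

section iso
variable {κ' : Γ → Bool → Bool → ℤ} {K : Subgroup (H κ)} {K' : Subgroup (H κ')}

lemma tr1 (hK : Full K) (hK' : Full K') (φ : K ≃* K') (g : K) : (φ g).1.γ = 1 ↔ g.1.γ = 1 := by
  rw [char1 hK, char1 hK', φ.surjective.forall]
  refine forall_congr' fun h => ?_
  rw [← map_commutatorElement, ← map_commutatorElement, ← map_commutatorElement,
    map_eq_one_iff φ φ.injective]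

/-- the induced endomorphism of `Γ` -/
def th (hK : Full K) (φ : K ≃* K') : Γ →* Γ :=
  hγ.comp (K'.subtype.comp (φ.toMonoidHom.comp ((inl (κ := κ)).codRestrict K hK.inl)))

lemma th_inj (hK : Full K) (hK' : Full K') (φ : K ≃* K') : Function.Injective (th hK φ) := by
  rw [injective_iff_map_eq_one]
  intro a ha
  exact (tr1 hK hK' φ ⟨inl a, hK.inl a⟩).1 ha

lemma phi_e (hK : Full K) (hK' : Full K') (φ : K ≃* K') (δ : Γ) (k : Bool) (x : Γ) (l : Bool) :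
    (φ ⟨e δ k, hK.e δ k⟩).1.v x l = (φ ⟨e 1 k, hK.e 1 k⟩).1.v ((th hK φ δ)⁻¹ * x) l := by
  have h1 : (⟨e δ k, hK.e δ k⟩ : K) =
      ⟨inl δ, hK.inl δ⟩ * ⟨e 1 k, hK.e 1 k⟩ * (⟨inl δ, hK.inl δ⟩ : K)⁻¹ := by
    apply Subtype.ext
    show e δ k = inl δ * e 1 k * (inl δ)⁻¹
    rw [conj_e, mul_one]
  rw [h1, map_mul, map_mul, map_inv]
  exact conj_v _ _ ((tr1 hK hK' φ _).2 rfl) _ _

lemma lin (hK : Full K) (hK' : Full K') (φ : K ≃* K') (k : Bool)
    (base : ∀ n : K, n.1.γ = 1 → (k = true → ∀ x, n.1.v x false = 0) → (∀ x, n.1.v x k = 0) →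
      ∀ x, (φ n).1.v x k = 0) (s : Finset Γ) :
    ∀ n : K, n.1.γ = 1 → (k = true → ∀ x, n.1.v x false = 0) → (∀ x, x ∉ s → n.1.v x k = 0) →
      ∀ x, (φ n).1.v x k =
        ∑ δ ∈ s, n.1.v δ k * (φ ⟨e 1 k, hK.e 1 k⟩).1.v ((th hK φ δ)⁻¹ * x) k := by
  induction s using Finset.induction_on with
  | empty => intro n h1 h2 h3 x; simpa using base n h1 h2 (fun x => h3 x (by simp)) x
  | insert δ s hδ ih =>
    intro n h1 h2 h3 x
    let a : K := ⟨e δ k, hK.e δ k⟩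
    have hv : ∀ y l, (n * a ^ (-n.1.v δ k)).1.v y l =
        n.1.v y l - n.1.v δ k * (if y = δ ∧ l = k then 1 else 0) := by
      intro y l
      show (n.1 * e δ k ^ (-n.1.v δ k)).v y l = _
      rw [mul_v, zpow_v _ rfl, h1, inv_one, one_mul, e_v, neg_mul, sub_eq_add_neg]
      congr
    have hγ' : (n * a ^ (-n.1.v δ k)).1.γ = 1 := by
      show (n.1 * e δ k ^ (-n.1.v δ k)).γ = 1
      rw [mul_γ, h1, zpow_γ _ rfl, one_mul]
    have h4 := ih (n * a ^ (-n.1.v δ k)) hγ' (fun hk y => by rw [hv, h2 hk]; simp [hk])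
      (fun y hy => by
        rw [hv]
        by_cases hyδ : y = δ
        · simp [hyδ]
        · rw [h3 y (by simp [hy, hyδ])]; simp [hyδ]) x
    have h5 : φ n = φ (n * a ^ (-n.1.v δ k)) * φ a ^ (n.1.v δ k) := by
      rw [← map_zpow, ← map_mul, mul_assoc, ← zpow_add]; simp
    have h6 : (φ n).1.v x k = (φ (n * a ^ (-n.1.v δ k))).1.v x k + n.1.v δ k * (φ a).1.v x k := by
      rw [h5]
      show ((φ (n * a ^ (-n.1.v δ k))).1 * (φ a).1 ^ (n.1.v δ k)).v x k = _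
      rw [mul_v, (tr1 hK hK' φ _).2 hγ', inv_one, one_mul, zpow_v _ ((tr1 hK hK' φ a).2 rfl)]
    rw [h6, h4, Finset.sum_insert hδ, add_comm, phi_e hK hK' φ]
    congr 1
    refine Finset.sum_congr rfl fun y hy => ?_
    have : y ≠ δ := fun h => hδ (h ▸ hy)
    rw [hv]; simp [this]

lemma at_phi (hK : Full K) (hK' : Full K') (φ : K ≃* K') (k : Bool)
    (base : ∀ n : K, n.1.γ = 1 → (k = true → ∀ x, n.1.v x false = 0) → (∀ x, n.1.v x k = 0) →
      ∀ x, (φ n).1.v x k = 0)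
    (hb : k = true → ∀ x, (φ.symm ⟨e 1 k, hK'.e 1 k⟩).1.v x false = 0) :
    ∃ g, At (fun x => (φ ⟨e 1 k, hK.e 1 k⟩).1.v x k) g := by
  have fin1 : {x | (φ.symm ⟨e 1 k, hK'.e 1 k⟩).1.v x k ≠ 0}.Finite :=
    ((hK.fs (φ.symm ⟨e 1 k, hK'.e 1 k⟩).2).1.image Prod.fst).subset fun x hx => ⟨(x, k), hx, rfl⟩
  have fin2 : {x | (φ ⟨e 1 k, hK.e 1 k⟩).1.v x k ≠ 0}.Finite :=
    ((hK'.fs (φ ⟨e 1 k, hK.e 1 k⟩).2).1.image Prod.fst).subset fun x hx => ⟨(x, k), hx, rfl⟩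
  refine unit_lemma fin1.toFinset (th hK φ) (th_inj hK hK' φ)
    (fun x => (φ.symm ⟨e 1 k, hK'.e 1 k⟩).1.v x k) _ fin2 fun x => ?_
  rw [← lin hK hK' φ k base fin1.toFinset (φ.symm ⟨e 1 k, hK'.e 1 k⟩)
    ((tr1 hK' hK φ.symm _).2 rfl) hb (fun y hy => by simpa using hy) x, φ.apply_symm_apply]
  simp [e_v]

end iso

lemma tr3 {K : Subgroup (H (kap R S))} {K' : Subgroup (H (kap R T))} (hK : Full K)
    (hK' : Full K') (ρ : Γ) (hρ : 1 < ρ ∧ ρ ∉ R) (φ : K ≃* K') (g : K) (hg : g.1.γ = 1)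
    (h : ∀ x, g.1.v x false = 0) : ∀ x, (φ g).1.v x false = 0 := by
  rw [char3 hK' ρ hρ _ ((tr1 hK hK' φ g).2 hg), φ.surjective.forall]
  intro a
  have := congrArg φ ((char3 hK ρ hρ g hg).1 h a)
  simpa using this

theorem rigid {K : Subgroup (H (kap R S))} {K' : Subgroup (H (kap R T))} (hK : Full K)
    (hK' : Full K') (hR : ∀ g ∈ R, g⁻¹ ∈ R) (hR1 : 1 ∉ R) (ρ : Γ) (hρ : 1 < ρ ∧ ρ ∉ R)
    (hrig : ∀ θ : Γ →* Γ, (∀ r ∈ R, θ r ∈ R) → ∀ g, θ g = g)
    (hS : ∃ z, z ∉ S) (hT : ∃ z, z ∉ T) (φ : K ≃* K') : ∃ h, ∀ g, g ∈ S ↔ g * h ∈ T := by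
  obtain ⟨a, ha⟩ := at_phi hK hK' φ false
    (fun n h1 _ h3 => tr3 hK hK' ρ hρ φ n h1 h3) (fun h => absurd h (by simp))
  obtain ⟨b, hb⟩ := at_phi hK hK' φ true
    (fun n h1 h2 h3 x => by
      have h4 : n.1.v = 0 := by
        funext x k
        cases k
        · exact h2 rfl x
        · exact h3 x
      have h5 : (φ n).1.v = 0 := by
        rw [char2 hK' ρ hρ hT _ ((tr1 hK hK' φ n).2 h1), φ.surjective.forall]
        intro a ha
        rw [← map_mul, ← map_mul, (char2 hK ρ hρ hS n h1).1 h4 a ((tr1 hK hK' φ a).1 ha)]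
      rw [h5]; rfl)
    (fun _ => tr3 hK' hK ρ hρ φ.symm _ rfl fun x => by simp [e_v])
  have hat : ∀ k g, At (fun x => (φ ⟨e 1 k, hK.e 1 k⟩).1.v x k) g → ∀ δ,
      At (fun x => (φ ⟨e δ k, hK.e δ k⟩).1.v x k) (th hK φ δ * g) := by
    intro k g hg δ
    refine ⟨?_, fun y hy => ?_⟩
    · show (φ ⟨e δ k, hK.e δ k⟩).1.v _ k ≠ 0
      rw [phi_e hK hK' φ, inv_mul_cancel_left]; exact hg.1
    · show (φ ⟨e δ k, hK.e δ k⟩).1.v _ k = 0
      rw [phi_e hK hK' φ]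
      exact hg.2 _ fun h => hy (inv_mul_eq_iff_eq_mul.1 h)
  have hθ := hrig ((MulAut.conj a⁻¹).toMonoidHom.comp (th hK φ)) fun r hr => by
    have h1 : (⟨e 1 false, hK.e _ _⟩ * ⟨e r false, hK.e _ _⟩ : K) =
        ⟨e r false, hK.e _ _⟩ * ⟨e 1 false, hK.e _ _⟩ := Subtype.ext (comm_e hR r hr)
    have h2 := congrArg (fun z => (φ z).1) h1
    simp only [map_mul, Subgroup.coe_mul] at h2
    have h3 := comm_aa hR _ _ ((tr1 hK hK' φ _).2 rfl) ((tr1 hK hK' φ _).2 rfl) a _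
      (fun h => hR1 (by
        have : th hK φ r = th hK φ 1 := by rw [map_one]; exact mul_eq_right.1 h.symm
        rwa [th_inj hK hK' φ this] at hr)) ha (hat _ _ ha r) h2
    simpa [mul_assoc] using h3
  refine ⟨a⁻¹ * b, fun g => ?_⟩
  have h1 := comm_ab (R := R) (S := S) (e 1 false) (e g true) rfl rfl 1 g (at_e _ _)
    (fun x => by simp [e_v]) (at_e _ _)
  have h2 := comm_ab _ _ ((tr1 hK hK' φ ⟨e 1 false, hK.e _ _⟩).2 rfl)
    ((tr1 hK hK' φ ⟨e g true, hK.e _ _⟩).2 rfl) a _ ha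
    (tr3 hK hK' ρ hρ φ _ rfl fun x => by simp [e_v]) (hat _ _ hb g)
  have h3 : a⁻¹ * (th hK φ g * b) = g * (a⁻¹ * b) := by
    have := hθ g
    simp only [MonoidHom.comp_apply, MulEquiv.coe_toMonoidHom, MulAut.conj_apply, inv_inv] at this
    conv_rhs => rw [← this]
    group
  rw [inv_one, one_mul] at h1
  rw [← h1, ← h3, ← h2, ← Subgroup.coe_mul, ← Subgroup.coe_mul, ← map_mul, ← map_mul,
    Subtype.val_inj, φ.injective.eq_iff, Subtype.ext_iff]
  rfl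

end Pool.Agent.H366Z.BO
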